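import Pool.Agent.Lib.MP_3ef1ab_nt.M.Hawk

/-!
# MP_3ef1ab_nt: Sun's law for the Hawkins primes

The Hawkins random sieve is the random model of the sieve of Eratosthenes: `2` is a prime, and
given the primes up to `k` the number `k + 1` is prime with probability `∏ (1 - 1/p)`, the product
over the primes `p ≤ k`. Almost surely the number of random primes strictly between the sum of the
first `n` and of the first `n + 1` random primes is asymptotically `n / 2`.
-/

set_option autoImplicit false

namespace Pool.Agent.Results.MP_3ef1ab_nt.HawkinsPrimes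

open Filter Topology MeasureTheory Pool.Agent.Lib.MP_3ef1ab_nt

/-- Sun's law holds almost surely for the Hawkins primes. -/
theorem result {Ω : Type} {m0 : MeasurableSpace Ω} (P : Measure Ω) [IsProbabilityMeasure P]
    (ℱ : Filtration ℕ m0) (A : ℕ → Set Ω) (h : Hawkins P ℱ A) :
    ∀ᵐ ω ∂P, SunLaw (fun m => ω ∈ A m) :=
  hawkins_law h

end Pool.Agent.Results.MP_3ef1ab_nt.HawkinsPrimes
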