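import Pool.Agent.Lib.MP_3ef1ab_nt.M.Gen

/-!
# MP_3ef1ab_nt: Sun's law for random sets of integers

Let the events `A k` (`k` belongs to the random set) be adapted to a filtration, and let the
conditional probability of `A (k + 1)` given the first `k` steps be `(c + o(1)) / L(k + 1)` almost
surely, where `L` is regularly varying of index `β` in `log k`. Then almost surely the number of
elements of the set strictly between the sum of its first `n` and of its first `n + 1` elements is
`(2^(-β) + o(1)) n`.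
-/

set_option autoImplicit false

namespace Pool.Agent.Results.MP_3ef1ab_nt.RandomSets

open Filter Topology MeasureTheory Pool.Agent.Lib.MP_3ef1ab_nt

/-- Sun's law for random sets with prescribed conditional densities. -/
theorem result {Ω : Type} {m0 : MeasurableSpace Ω} (P : Measure Ω) [IsProbabilityMeasure P]
    (ℱ : Filtration ℕ m0) (A : ℕ → Set Ω) (hA : ∀ k, MeasurableSet[ℱ k] (A k))
    (L : ℝ → ℝ) (β : ℝ) (hL : RVL L β) (c : Ω → ℝ)
    (hq : ∀ᵐ ω ∂P, 0 < c ω ∧ Tendsto (fun k : ℕ => L ((k + 1 : ℕ) : ℝ) *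
      (P[(A (k + 1)).indicator (fun _ => (1 : ℝ)) | ℱ k]) ω) atTop (𝓝 (c ω))) :
    ∀ᵐ ω ∂P, Tendsto (fun n : ℕ => (cn (fun m => 0 < m ∧ ω ∈ A m) n : ℝ) / n) atTop
      (𝓝 (2 ^ (-β))) :=
  random_law hL hA c hq

end Pool.Agent.Results.MP_3ef1ab_nt.RandomSets
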