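import Pool.Agent.Lib.MP_3ef1ab_nt.E.Main

/-!
# MP_3ef1ab_nt: the stable forms of Sun's conjecture

Sun's conjecture says that the number of primes strictly between the sum of the first `n` and of
the first `n + 1` primes is asymptotically `n / 2`. Each of its robust forms (for all small
perturbations of the set of primes; for the primes outside an arbitrarily sparse set of primes;
for the primes different from `q`, uniformly in `q`; for sums of consecutive primes, uniformly in
the first one) is equivalent to the prime number theorem in all intervals of length `√(x log x)`.
-/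

set_option autoImplicit false

namespace Pool.Agent.Results.MP_3ef1ab_nt.StableForm

open Filter Topology Pool.Agent.Lib.MP_3ef1ab_nt

/-- The equivalence of the stable forms of Sun's conjecture with the prime number theorem in all
intervals of length `√(x log x)`. -/
theorem result (g : ℕ → ℕ) (hg : Tendsto g atTop atTop)
    (hg' : Tendsto (fun n : ℕ => (g n : ℝ) / √((n : ℝ) / Real.log n)) atTop (𝓝 0))
    (K : ℕ → ℕ) (hK : ∀ᶠ n : ℕ in atTop, 3 * √(n : ℝ) ≤ K n)
    (hK' : Tendsto (fun n : ℕ => (K n : ℝ) / n) atTop (𝓝 0)) :
    List.TFAE [ShortPNT, AllNear, SparseDel g, UniDel, UniStart K] :=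
  stable g hg hg' K hK hK'

end Pool.Agent.Results.MP_3ef1ab_nt.StableForm
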