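import Pool.Agent.Lib.MP_3ef1ab_nt.F.Uni

/-!
# MP_3ef1ab_nt: Sun's law for the sieve of Eratosthenes stopped early

Let `A_z` be the set of the integers `m ≥ 2` all of whose prime factors are `> z(m)`; for
`z(m) = √m` it is the set of primes. If `z(m) ≤ m^(1/u)` and `log z` is regularly varying of index
`β` in `log m`, then the number of elements of `A_z` strictly between the sum of its first `n` and
of its first `n + 1` elements is `(2^(-β) + O(exp(-u/80))) n`, for `u ≥ u0`.
-/

set_option autoImplicit false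

namespace Pool.Agent.Results.MP_3ef1ab_nt.StoppedSieve

open Filter Topology Pool.Agent.Lib.MP_3ef1ab_nt

/-- Sun's law for the stopped sieve. -/
theorem result : ∃ C u0 : ℝ, 0 < C ∧ 0 < u0 ∧
    ∀ u : ℝ, u0 ≤ u → ∀ (z : ℝ → ℝ) (β : ℝ), 0 ≤ β → Tendsto z atTop atTop → LogRV z β →
      (∀ᶠ x : ℝ in atTop, u * Real.log (z x) ≤ Real.log x) →
      ∀ᶠ n : ℕ in atTop, |(cn (Az z) n : ℝ) / n - 2 ^ (-β)| ≤ C * Real.exp (-(u / 80)) :=
  unified flI mer

end Pool.Agent.Results.MP_3ef1ab_nt.StoppedSieve
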